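import Pool.Agent.Helper65_TMP.Mtp

/-!
# TMP: adjointness (module ADJ)
-/

open scoped BigOperators

namespace Pool.Agent.DEN.TMP.H65

open Pool.Agent.DEN Pool.Agent.DEN.TMP

section
variable {H X : Type} [Group H] [MulAction H X] (L : Subgroup H)

theorem hk_out {κ : H → ℂ} (hκ : Hk L κ) (h : H) : κ (h : H ⧸ L).out = κ h := by
  have h1 : ((h : H ⧸ L).out : H ⧸ L) = (h : H ⧸ L) := QuotientGroup.out_eq' _
  rw [QuotientGroup.eq] at h1
  have h2 := (hκ.1 _ h1 (h : H ⧸ L).out).2
  rw [mul_inv_cancel_left] at h2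
  exact h2.symm

theorem fibL_eq (x' x : X) (δ : H ⧸ L) :
    {h : H | h • x' = x ∧ (h : H ⧸ L) = δ} =
      (fun l : L => δ.out * (l : H)) '' {l : L | l • x' = δ.out⁻¹ • x} := by
  ext h
  constructor
  · rintro ⟨h1, h2⟩
    have h3 : ((δ.out : H) : H ⧸ L) = (h : H ⧸ L) := by
      rw [h2]
      exact QuotientGroup.out_eq' δ
    rw [QuotientGroup.eq] at h3
    refine ⟨⟨_, h3⟩, ?_, by simp⟩
    show (δ.out⁻¹ * h) • x' = δ.out⁻¹ • x
    rw [mul_smul, h1]
  · rintro ⟨l, hl, rfl⟩
    have hl' : (l : H) • x' = δ.out⁻¹ • x := hl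
    refine ⟨?_, ?_⟩
    · show (δ.out * (l : H)) • x' = x
      rw [mul_smul, hl', smul_inv_smul]
    · show ((δ.out * (l : H) : H) : H ⧸ L) = δ
      rw [QuotientGroup.mk_mul_of_mem _ l.2]
      exact QuotientGroup.out_eq' δ

theorem fibL_finite (x' x : X) (hx : Finite (MulAction.stabilizer L x')) (δ : H ⧸ L) :
    {h : H | h • x' = x ∧ (h : H ⧸ L) = δ}.Finite := by
  rw [fibL_eq]
  exact (fib_finite (Δ := L) x' _ hx).image _

theorem fibL_ncard (x' x : X) (δ : H ⧸ L) (h : ∃ l : L, l • x' = δ.out⁻¹ • x) :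
    {h : H | h • x' = x ∧ (h : H ⧸ L) = δ}.ncard = Nat.card (MulAction.stabilizer L x') := by
  rw [fibL_eq, Set.ncard_image_of_injective, fib_ncard (Δ := L) x' _ h]
  intro a b hab
  exact Subtype.ext (mul_left_cancel hab)

theorem fibL_ncard0 (x' x : X) (δ : H ⧸ L) (h : ¬ ∃ l : L, l • x' = δ.out⁻¹ • x) :
    {h : H | h • x' = x ∧ (h : H ⧸ L) = δ}.ncard = 0 := by
  have : {l : L | l • x' = δ.out⁻¹ • x} = ∅ := by
    ext γ
    simp only [Set.mem_ofPred_eq, Set.mem_empty_iff_false, iff_false]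
    exact fun h' => h ⟨γ, h'⟩
  rw [fibL_eq, this]
  simp

open Classical in
/-- The kernel of a Hecke operator between two points. -/
noncomputable def ker (κ : H → ℂ) (x' x : X) : ℂ :=
  ∑ᶠ h : H, if h • x' = x then κ h else 0

open Classical in
theorem ker_eq {κ : H → ℂ} (hκ : Hk L κ) (x' x : X) (hx : Finite (MulAction.stabilizer L x'))
    (D : Finset (H ⧸ L)) (hD : ∀ δ : H ⧸ L, κ δ.out ≠ 0 → δ ∈ D) :
    ker κ x' x = (Nat.card (MulAction.stabilizer L x') : ℂ) *
      ∑ δ ∈ D with (∃ l : L, l • x' = δ.out⁻¹ • x), κ δ.out := by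
  have hT : {h : H | h • x' = x ∧ (h : H ⧸ L) ∈ D}.Finite := by
    have : {h : H | h • x' = x ∧ (h : H ⧸ L) ∈ D} =
        ⋃ δ ∈ D, {h : H | h • x' = x ∧ (h : H ⧸ L) = δ} := by
      ext h
      simp
    rw [this]
    exact Set.Finite.biUnion D.finite_toSet (fun δ _ => fibL_finite L x' x hx δ)
  have hs : (Function.support fun h : H => if h • x' = x then κ h else 0) ⊆ ↑hT.toFinset := by
    intro h hh
    simp only [Function.mem_support] at hh
    simp only [Set.Finite.coe_toFinset, Set.mem_ofPred_eq]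
    by_cases h1 : h • x' = x
    · rw [if_pos h1] at hh
      refine ⟨h1, hD _ ?_⟩
      rw [hk_out L hκ]
      exact hh
    · rw [if_neg h1] at hh
      exact absurd rfl hh
  rw [ker, finsum_eq_sum_of_support_subset _ hs]
  have hmap : ∀ h ∈ hT.toFinset, (h : H ⧸ L) ∈ D := by
    intro h hh
    simp only [Set.Finite.mem_toFinset, Set.mem_ofPred_eq] at hh
    exact hh.2
  rw [← Finset.sum_fiberwise_of_maps_to hmap, Finset.mul_sum, Finset.sum_filter]
  refine Finset.sum_congr rfl fun δ hδ => ?_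
  have h1 : (∑ h ∈ hT.toFinset.filter (fun h : H => (QuotientGroup.mk h : H ⧸ L) = δ),
        (if h • x' = x then κ h else 0)) =
      ∑ h ∈ hT.toFinset.filter (fun h : H => (QuotientGroup.mk h : H ⧸ L) = δ), κ δ.out := by
    refine Finset.sum_congr rfl fun h hh => ?_
    simp only [Finset.mem_filter, Set.Finite.mem_toFinset, Set.mem_ofPred_eq] at hh
    rw [if_pos hh.1.1, ← hh.2, hk_out L hκ]
  have h2 : (hT.toFinset.filter (fun h : H => (QuotientGroup.mk h : H ⧸ L) = δ)).card =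
      {h : H | h • x' = x ∧ (h : H ⧸ L) = δ}.ncard := by
    rw [Set.ncard_eq_toFinset_card _ (fibL_finite L x' x hx δ)]
    congr 1
    ext h
    simp only [Finset.mem_filter, Set.Finite.mem_toFinset, Set.mem_ofPred_eq]
    constructor
    · rintro ⟨⟨h3, _⟩, h4⟩
      exact ⟨h3, h4⟩
    · rintro ⟨h3, h4⟩
      refine ⟨⟨h3, ?_⟩, h4⟩
      rw [h4]
      exact hδ
  rw [h1, Finset.sum_const, nsmul_eq_mul, h2]
  split_ifs with h3
  · rw [fibL_ncard L x' x δ h3]
  · rw [fibL_ncard0 L x' x δ h3]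
    simp

open Classical in
/-- The Hecke operator in terms of its kernel. -/
theorem hecke_eq {κ : H → ℂ} (hκ : Hk L κ) (hst : ∀ x : X, Finite (MulAction.stabilizer L x))
    (f : X → ℂ) (hf : ∀ l ∈ L, ∀ x, f (l • x) = f x)
    (O : Finset (MulAction.orbitRel.Quotient L X))
    (hO : ∀ o : MulAction.orbitRel.Quotient L X, f o.out ≠ 0 → o ∈ O) (x : X) :
    ∑ᶠ δ : H ⧸ L, κ δ.out * f (δ.out⁻¹ • x) =
      ∑ o ∈ O, f o.out * ker κ o.out x / (Nat.card (MulAction.stabilizer L o.out) : ℂ) := by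
  set D : Finset (H ⧸ L) := hκ.2.toFinset with hDdef
  have hD : ∀ δ : H ⧸ L, κ δ.out ≠ 0 → δ ∈ D := by
    intro δ hδ
    simp [hDdef, hδ]
  have hs : (Function.support fun δ : H ⧸ L => κ δ.out * f (δ.out⁻¹ • x)) ⊆ ↑D := by
    intro δ hδ
    simp only [Function.mem_support] at hδ
    exact hD δ (left_ne_zero_of_mul hδ)
  rw [finsum_eq_sum_of_support_subset _ hs]
  have hfo : ∀ y : X, f (Quotient.mk (MulAction.orbitRel L X) y).out = f y := by
    intro y
    obtain ⟨l, hl⟩ := (out_orbit (Δ := L) (Quotient.mk (MulAction.orbitRel L X) y) y).2 rfl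
    conv_rhs => rw [← hl]
    exact (hf l l.2 _).symm
  have h1 : ∀ δ ∈ D, κ δ.out * f (δ.out⁻¹ • x) = ∑ o ∈ O,
      if (∃ l : L, l • o.out = δ.out⁻¹ • x) then κ δ.out * f o.out else 0 := by
    intro δ _
    by_cases h2 : f (δ.out⁻¹ • x) = 0
    · rw [h2, mul_zero]
      symm
      apply Finset.sum_eq_zero
      intro o _
      split_ifs with h3
      · rw [out_orbit] at h3
        rw [← h3, hfo, h2, mul_zero]
      · rfl
    · have h4 : Quotient.mk (MulAction.orbitRel L X) (δ.out⁻¹ • x) ∈ O := by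
        apply hO
        rw [hfo]
        exact h2
      rw [Finset.sum_eq_single_of_mem _ h4]
      · rw [if_pos ((out_orbit _ _).2 rfl), hfo]
      · intro o _ ho
        rw [if_neg]
        rw [out_orbit]
        exact fun h => ho h.symm
  rw [Finset.sum_congr rfl h1, Finset.sum_comm]
  refine Finset.sum_congr rfl fun o _ => ?_
  have hn : (Nat.card (MulAction.stabilizer L o.out) : ℂ) ≠ 0 := by
    have := hst o.out
    exact_mod_cast Nat.card_pos.ne'
  rw [ker_eq L hκ o.out x (hst _) D hD, ← Finset.sum_filter, ← Finset.sum_mul]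
  field_simp

theorem ker_sta (κ : H → ℂ) (x' x : X) : ker (sta κ) x' x = (starRingEnd ℂ) (ker κ x x') := by
  classical
  have h1 : (starRingEnd ℂ) (ker κ x x') =
      ∑ᶠ h : H, (starRingEnd ℂ) (if h • x = x' then κ h else 0) := by
    rw [ker]
    exact AddMonoidHom.map_finsum_of_injective ((starRingEnd ℂ).toAddMonoidHom)
      (starRingEnd ℂ).injective _
  rw [h1, ker, ← finsum_comp_equiv (Equiv.inv H)]
  refine finsum_congr fun h => ?_
  simp only [Equiv.inv_apply, sta, inv_inv]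
  by_cases h2 : h • x = x'
  · rw [if_pos h2, if_pos (by rw [inv_smul_eq_iff, h2])]
  · rw [if_neg h2, if_neg (by rw [inv_smul_eq_iff]; exact fun h3 => h2 h3.symm), map_zero]

end

theorem adj (_ : MtpStmt) : AdjStmt := by
  intro H X _ _ L hst f g hf hg hfo hgo κ hκ hκs
  classical
  set O1 : Finset (MulAction.orbitRel.Quotient L X) := hfo.toFinset with hO1
  set O2 : Finset (MulAction.orbitRel.Quotient L X) := hgo.toFinset with hO2
  have hO1m : ∀ o : MulAction.orbitRel.Quotient L X, f o.out ≠ 0 → o ∈ O1 := by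
    intro o ho
    simp [hO1, ho]
  have hO2m : ∀ o : MulAction.orbitRel.Quotient L X, g o.out ≠ 0 → o ∈ O2 := by
    intro o ho
    simp [hO2, ho]
  rw [finsum_eq_sum_of_support_subset (s := O2) _ (by
    intro o ho
    simp only [Function.mem_support] at ho
    apply hO2m
    intro h0
    apply ho
    rw [h0, mul_zero, zero_div])]
  rw [finsum_eq_sum_of_support_subset (s := O1) _ (by
    intro o ho
    simp only [Function.mem_support] at ho
    apply hO1m
    intro h0
    apply ho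
    rw [h0, map_zero, zero_mul, zero_div])]
  have hL : ∀ o ∈ O2, (starRingEnd ℂ) (∑ᶠ δ : H ⧸ L, κ δ.out * f (δ.out⁻¹ • o.out)) * g o.out /
          (Nat.card (MulAction.stabilizer L o.out) : ℂ) =
      ∑ o' ∈ O1, (starRingEnd ℂ) (f o'.out) * (starRingEnd ℂ) (ker κ o'.out o.out) /
        (Nat.card (MulAction.stabilizer L o'.out) : ℂ) * g o.out /
          (Nat.card (MulAction.stabilizer L o.out) : ℂ) := by
    intro o _
    rw [hecke_eq L hκ hst f hf O1 hO1m, map_sum, Finset.sum_mul, Finset.sum_div]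
    refine Finset.sum_congr rfl fun o' _ => ?_
    rw [map_div₀, map_mul, Complex.conj_natCast]
  have hR : ∀ o' ∈ O1, (starRingEnd ℂ) (f o'.out) *
        (∑ᶠ δ : H ⧸ L, sta κ δ.out * g (δ.out⁻¹ • o'.out)) /
          (Nat.card (MulAction.stabilizer L o'.out) : ℂ) =
      ∑ o ∈ O2, (starRingEnd ℂ) (f o'.out) * (g o.out * (starRingEnd ℂ) (ker κ o'.out o.out) /
        (Nat.card (MulAction.stabilizer L o.out) : ℂ)) /
          (Nat.card (MulAction.stabilizer L o'.out) : ℂ) := by
    intro o' _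
    rw [hecke_eq L hκs hst g hg O2 hO2m, Finset.mul_sum, Finset.sum_div]
    refine Finset.sum_congr rfl fun o _ => ?_
    rw [ker_sta]
  rw [Finset.sum_congr rfl hL, Finset.sum_congr rfl hR, Finset.sum_comm]
  refine Finset.sum_congr rfl fun o' _ => Finset.sum_congr rfl fun o _ => ?_
  ring

end Pool.Agent.DEN.TMP.H65
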