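import Pool.Agent.Helper2_TMP.StG

/-!
# TMP: mass transport (module MTP)
-/

open scoped BigOperators

namespace Pool.Agent.DEN.TMP.H65

open Pool.Agent.DEN Pool.Agent.DEN.TMP

section
variable {Δ X : Type} [Group Δ] [MulAction Δ X]

theorem fib_finite (x y : X) (hx : Finite (MulAction.stabilizer Δ x)) :
    {γ : Δ | γ • x = y}.Finite := by
  by_cases h : ∃ γ : Δ, γ • x = y
  · obtain ⟨γ₀, rfl⟩ := h
    have h1 : ((MulAction.stabilizer Δ x : Subgroup Δ) : Set Δ).Finite := hx
    refine (h1.image (fun s => γ₀ * s)).subset ?_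
    intro γ hγ
    have hγ' : γ • x = γ₀ • x := hγ
    refine ⟨γ₀⁻¹ * γ, ?_, by simp⟩
    rw [SetLike.mem_coe, MulAction.mem_stabilizer_iff, mul_smul, hγ', inv_smul_smul]
  · convert Set.finite_empty (α := Δ)
    ext γ
    simp only [Set.mem_ofPred_eq, Set.mem_empty_iff_false, iff_false]
    exact fun h' => h ⟨γ, h'⟩

theorem fib_ncard (x y : X) (h : ∃ γ : Δ, γ • x = y) :
    {γ : Δ | γ • x = y}.ncard = Nat.card (MulAction.stabilizer Δ x) := by
  obtain ⟨γ₀, rfl⟩ := h
  have h1 : {γ : Δ | γ • x = γ₀ • x} =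
      (fun s => γ₀ * s) '' ((MulAction.stabilizer Δ x : Subgroup Δ) : Set Δ) := by
    ext γ
    constructor
    · intro hγ
      have hγ' : γ • x = γ₀ • x := hγ
      refine ⟨γ₀⁻¹ * γ, ?_, by simp⟩
      rw [SetLike.mem_coe, MulAction.mem_stabilizer_iff, mul_smul, hγ', inv_smul_smul]
    · rintro ⟨s, hs, rfl⟩
      have hs' : s • x = x := hs
      show (γ₀ * s) • x = γ₀ • x
      rw [mul_smul, hs']
  rw [h1, Set.ncard_image_of_injective _ (mul_right_injective γ₀), ← Nat.card_coe_set_eq]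
  rfl

open Classical in
/-- Sum over the group of a function with finite support on the orbit. -/
theorem sum_orbit (x : X) (hx : Finite (MulAction.stabilizer Δ x)) (h : X → ℂ) (s : Finset X)
    (hs : ∀ y, h y ≠ 0 → y ∈ s) :
    ∑ᶠ γ : Δ, h (γ • x) = (Nat.card (MulAction.stabilizer Δ x) : ℂ) *
      ∑ y ∈ s with (∃ γ : Δ, γ • x = y), h y := by
  have hT : {γ : Δ | γ • x ∈ s}.Finite := by
    have : {γ : Δ | γ • x ∈ s} = ⋃ y ∈ s, {γ : Δ | γ • x = y} := by
      ext γ
      simp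
    rw [this]
    exact Set.Finite.biUnion s.finite_toSet (fun y _ => fib_finite x y hx)
  rw [finsum_eq_sum_of_support_subset (s := hT.toFinset)]
  · have hmap : ∀ γ ∈ hT.toFinset, γ • x ∈ s.filter (fun y => ∃ γ : Δ, γ • x = y) := by
      intro γ hγ
      simp only [Set.Finite.mem_toFinset, Set.mem_ofPred_eq] at hγ
      simp only [Finset.mem_filter]
      exact ⟨hγ, γ, rfl⟩
    rw [← Finset.sum_fiberwise_of_maps_to hmap, Finset.mul_sum]
    refine Finset.sum_congr rfl fun y hy => ?_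
    simp only [Finset.mem_filter] at hy
    have h1 : ∑ γ ∈ hT.toFinset with γ • x = y, h (γ • x) =
        ∑ γ ∈ hT.toFinset with γ • x = y, h y := by
      refine Finset.sum_congr rfl fun γ hγ => ?_
      simp only [Finset.mem_filter] at hγ
      rw [hγ.2]
    rw [h1, Finset.sum_const, nsmul_eq_mul]
    congr 2
    rw [← fib_ncard x y hy.2, Set.ncard_eq_toFinset_card _ (fib_finite x y hx)]
    congr 1
    ext γ
    simp only [Finset.mem_filter, Set.Finite.mem_toFinset, Set.mem_ofPred_eq]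
    constructor
    · rintro ⟨_, h2⟩
      exact h2
    · intro h2
      refine ⟨?_, h2⟩
      rw [h2]
      exact hy.1
  · intro γ hγ
    simp only [Function.mem_support] at hγ
    simp only [Set.Finite.coe_toFinset, Set.mem_ofPred_eq]
    exact hs _ hγ

theorem out_orbit (o : MulAction.orbitRel.Quotient Δ X) (y : X) :
    (∃ γ : Δ, γ • o.out = y) ↔ (Quotient.mk (MulAction.orbitRel Δ X) y : _) = o := by
  constructor
  · rintro ⟨γ, rfl⟩
    have h1 : Quotient.mk (MulAction.orbitRel Δ X) (γ • o.out) =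
        Quotient.mk (MulAction.orbitRel Δ X) o.out := Quotient.sound ⟨γ, rfl⟩
    rw [h1]
    exact Quotient.out_eq o
  · rintro rfl
    have h1 := Quotient.mk_out (s := MulAction.orbitRel Δ X) y
    have h2 : (Quotient.mk (MulAction.orbitRel Δ X) y).out ∈ MulAction.orbit Δ y := h1
    rw [MulAction.mem_orbit_symm] at h2
    exact h2

open Classical in
/-- Decomposition of a finite sum along the orbits. -/
theorem sum_by_orbits (hst : ∀ x : X, Finite (MulAction.stabilizer Δ x)) (h : X → ℂ)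
    (hh : {y | h y ≠ 0}.Finite) (O : Finset (MulAction.orbitRel.Quotient Δ X))
    (hO : ∀ y, h y ≠ 0 → Quotient.mk (MulAction.orbitRel Δ X) y ∈ O) :
    ∑ᶠ y, h y = ∑ o ∈ O, (∑ᶠ γ : Δ, h (γ • o.out)) /
      (Nat.card (MulAction.stabilizer Δ o.out) : ℂ) := by
  rw [finsum_eq_sum_of_support_subset (s := hh.toFinset) h (by
    intro y hy
    simpa using hy)]
  have hmap : ∀ y ∈ hh.toFinset, Quotient.mk (MulAction.orbitRel Δ X) y ∈ O := by
    intro y hy
    apply hO
    simpa using hy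
  rw [← Finset.sum_fiberwise_of_maps_to hmap]
  refine Finset.sum_congr rfl fun o _ => ?_
  rw [sum_orbit o.out (hst _) h hh.toFinset (by intro y hy; simpa using hy)]
  have hn : (Nat.card (MulAction.stabilizer Δ o.out) : ℂ) ≠ 0 := by
    have := hst o.out
    exact_mod_cast Nat.card_pos.ne'
  rw [mul_div_cancel_left₀ _ hn]
  refine Finset.sum_congr ?_ fun _ _ => rfl
  ext y
  simp only [Finset.mem_filter]
  rw [out_orbit]

end

theorem mtp : MtpStmt := by
  intro Δ X _ _ hst Φ hinv h1 h2 h3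
  classical
  -- the finite sets of orbits
  set O1 : Finset (MulAction.orbitRel.Quotient Δ X) := h3.toFinset with hO1
  have hO1m : ∀ o, o ∈ O1 ↔ ∃ y, Φ o.out y ≠ 0 := by
    intro o
    simp [hO1]
  have h4 : {o' : MulAction.orbitRel.Quotient Δ X | ∃ o ∈ O1, ∃ y, Φ o.out y ≠ 0 ∧
      Quotient.mk (MulAction.orbitRel Δ X) y = o'}.Finite := by
    have : {o' : MulAction.orbitRel.Quotient Δ X | ∃ o ∈ O1, ∃ y, Φ o.out y ≠ 0 ∧
      Quotient.mk (MulAction.orbitRel Δ X) y = o'} =
      ⋃ o ∈ O1, (Quotient.mk (MulAction.orbitRel Δ X)) '' {y | Φ o.out y ≠ 0} := by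
      ext o'
      simp
    rw [this]
    exact Set.Finite.biUnion O1.finite_toSet (fun o _ => (h1 o.out).image _)
  set O2 : Finset (MulAction.orbitRel.Quotient Δ X) := h4.toFinset with hO2
  have hO2m : ∀ o', o' ∈ O2 ↔ ∃ o ∈ O1, ∃ y, Φ o.out y ≠ 0 ∧
      Quotient.mk (MulAction.orbitRel Δ X) y = o' := by
    intro o
    simp [hO2]
  have hmove : ∀ x y, Φ x y ≠ 0 → ∃ γ : Δ,
      Φ (Quotient.mk (MulAction.orbitRel Δ X) x).out (γ • y) ≠ 0 ∧
      γ • x = (Quotient.mk (MulAction.orbitRel Δ X) x).out := by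
    intro x y hxy
    obtain ⟨γ, hγ⟩ := (out_orbit (Δ := Δ) (Quotient.mk (MulAction.orbitRel Δ X) x) x).2 rfl
    refine ⟨γ⁻¹, ?_, ?_⟩
    · rw [← hinv γ, hγ, smul_inv_smul]
      exact hxy
    · rw [inv_smul_eq_iff, hγ]
  have hmkγ : ∀ (γ : Δ) (y : X), Quotient.mk (MulAction.orbitRel Δ X) (γ • y) =
      Quotient.mk (MulAction.orbitRel Δ X) y := by
    intro γ y
    apply Quotient.sound
    exact ⟨γ, rfl⟩
  have hpair : ∀ x y, Φ x y ≠ 0 → Quotient.mk (MulAction.orbitRel Δ X) x ∈ O1 ∧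
      Quotient.mk (MulAction.orbitRel Δ X) y ∈ O2 := by
    intro x y hxy
    obtain ⟨γ, hγ, _⟩ := hmove x y hxy
    have hx1 : Quotient.mk (MulAction.orbitRel Δ X) x ∈ O1 := (hO1m _).2 ⟨_, hγ⟩
    exact ⟨hx1, (hO2m _).2 ⟨_, hx1, γ • y, hγ, hmkγ γ y⟩⟩
  have hmkout : ∀ o : MulAction.orbitRel.Quotient Δ X,
      Quotient.mk (MulAction.orbitRel Δ X) o.out = o := fun o => Quotient.out_eq o
  -- the two sides
  rw [finsum_eq_sum_of_support_subset (s := O1) _ (by
    intro o ho
    simp only [Function.mem_support] at ho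
    simp only [Finset.mem_coe]
    rw [hO1m]
    by_contra hne
    push Not at hne
    apply ho
    simp [hne])]
  rw [finsum_eq_sum_of_support_subset (s := O2) _ (by
    intro o ho
    simp only [Function.mem_support] at ho
    simp only [Finset.mem_coe]
    by_contra hne
    apply ho
    have : ∀ x, Φ x o.out = 0 := by
      intro x
      by_contra hx
      have := (hpair _ _ hx).2
      rw [hmkout] at this
      exact hne this
    simp [this])]
  have hL : ∀ o ∈ O1, (∑ᶠ y, Φ o.out y) / (Nat.card (MulAction.stabilizer Δ o.out) : ℂ) =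
      ∑ o' ∈ O2, (∑ᶠ γ : Δ, Φ o.out (γ • o'.out)) /
        (Nat.card (MulAction.stabilizer Δ o'.out) : ℂ) /
        (Nat.card (MulAction.stabilizer Δ o.out) : ℂ) := by
    intro o _
    rw [sum_by_orbits hst (Φ o.out) (h1 o.out) O2 (fun y hy => (hpair _ _ hy).2),
      Finset.sum_div]
  have hR : ∀ o' ∈ O2, (∑ᶠ x, Φ x o'.out) / (Nat.card (MulAction.stabilizer Δ o'.out) : ℂ) =
      ∑ o ∈ O1, (∑ᶠ γ : Δ, Φ (γ • o.out) o'.out) /
        (Nat.card (MulAction.stabilizer Δ o.out) : ℂ) /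
        (Nat.card (MulAction.stabilizer Δ o'.out) : ℂ) := by
    intro o' _
    rw [sum_by_orbits hst (fun x => Φ x o'.out) (h2 o'.out) O1 (fun x hx => (hpair _ _ hx).1),
      Finset.sum_div]
  rw [Finset.sum_congr rfl hL, Finset.sum_congr rfl hR, Finset.sum_comm]
  refine Finset.sum_congr rfl fun o' _ => Finset.sum_congr rfl fun o _ => ?_
  have h5 : ∑ᶠ γ : Δ, Φ (γ • o.out) o'.out = ∑ᶠ γ : Δ, Φ o.out (γ • o'.out) := by
    rw [← finsum_comp_equiv (Equiv.inv Δ)]
    refine finsum_congr fun γ => ?_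
    simp only [Equiv.inv_apply]
    rw [← hinv γ, smul_inv_smul]
  rw [h5, div_div, div_div, mul_comm (Nat.card (MulAction.stabilizer Δ o'.out) : ℂ)]

end Pool.Agent.DEN.TMP.H65
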